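import Mathlib

set_option autoImplicit false

namespace Pool.Agent.H.MP_f7849a_an
open scoped Topology
open MeasureTheory Set Filter Real

def Bm {X : Type} [MeasurableSpace X] (u : X → ℝ) : Prop := Measurable u ∧ ∃ b, ∀ x, |u x| ≤ b

section gen
variable {X : Type} [MeasurableSpace X] {u v : X → ℝ}

theorem Bm.add (hu : Bm u) (hv : Bm v) : Bm fun x => u x + v x := by
  obtain ⟨a, b, c⟩ := hu
  obtain ⟨d, e, f⟩ := hv
  exact ⟨a.add d, b + e, fun x => (abs_add_le _ _).trans (add_le_add (c x) (f x))⟩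

theorem Bm.mul (c : ℝ) (hu : Bm u) : Bm fun x => c * u x := by
  obtain ⟨a, b, d⟩ := hu
  exact ⟨a.const_mul c, |c| * b, fun x => by rw [abs_mul]; gcongr; exact d x⟩

theorem Bm.sub (hu : Bm u) (hv : Bm v) : Bm fun x => u x - v x := by
  simpa [sub_eq_add_neg] using hu.add (hv.mul (-1))

theorem fix {Φ : (X → ℝ) → X → ℝ} {θ : ℝ} (h0 : 0 ≤ θ) (h1 : θ < 1) (a : ∀ u, Bm u → Bm (Φ u))
    (c : ∀ u v b, Bm u → Bm v → (∀ x, |u x - v x| ≤ b) → ∀ x, |Φ u x - Φ v x| ≤ θ * b) :
    ∃ g, Bm g ∧ ∀ x, g x = Φ g x := by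
  have z : Bm fun _ : X => (0 : ℝ) := ⟨measurable_const, 0, fun _ => by simp⟩
  obtain ⟨G, hG⟩ : ∃ G : ℕ → X → ℝ, G = fun n => Φ^[n] fun _ => 0 := ⟨_, rfl⟩
  have s : ∀ n, G (n + 1) = Φ (G n) := fun n => by rw [hG]; exact Function.iterate_succ_apply' _ _ _
  have g0 : G 0 = fun _ => 0 := by rw [hG]; rfl
  have B : ∀ n, Bm (G n) := fun n => by
    induction n with
    | zero => rw [g0]; exact z
    | succ n ih => rw [s]; exact a _ ih
  obtain ⟨b, hb⟩ := (B 1).2
  have d : ∀ n x, dist (G n x) (G (n + 1) x) ≤ b * θ ^ n := fun n => by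
    induction n with
    | zero => intro x; simpa [g0] using hb x
    | succ n ih =>
      intro x
      have := c _ _ _ (B n) (B (n + 1)) ih x
      rw [← s, ← s] at this
      exact this.trans_eq (by ring)
  choose g hg using fun x => cauchySeq_tendsto_of_complete
    (cauchySeq_of_le_geometric θ b h1 (d · x))
  have e := fun x n => dist_le_of_le_geometric_of_tendsto θ b h1 (d · x) (hg x) n
  have Bg : Bm g := ⟨measurable_of_tendsto_metrizable (fun n => (B n).1) (tendsto_pi_nhds.2 hg),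
    b / (1 - θ), fun x => by simpa [g0] using e x 0⟩
  refine ⟨g, Bg, fun x => tendsto_nhds_unique ((tendsto_add_atTop_iff_nat 1).2 (hg x)) ?_⟩
  refine tendsto_iff_dist_tendsto_zero.2 (squeeze_zero (g := fun n => θ * (b * θ ^ n / (1 - θ)))
    (fun _ => dist_nonneg) (fun n => by rw [s]; exact c _ _ _ (B n) Bg (e · n) x) ?_)
  simpa using (((tendsto_pow_atTop_nhds_zero_of_lt_one h0 h1).const_mul b).div_const
    (1 - θ)).const_mul θ

theorem supl {V : Set X} (hu : Bm u) {a : ℝ}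
    (H : ∀ b, (∀ r ∈ V, |u r| ≤ b) → ∀ r ∈ V, |u r| ≤ a + b / 2) : ∀ r ∈ V, |u r| ≤ 2 * a := by
  intro r hr
  obtain ⟨b, hb⟩ := hu.2
  have bd : BddAbove ((fun r => |u r|) '' V) := ⟨b, by rintro _ ⟨x, -, rfl⟩; exact hb x⟩
  have k : ∀ r ∈ V, |u r| ≤ sSup ((fun r => |u r|) '' V) := fun r hr => le_csSup bd ⟨r, hr, rfl⟩
  have : sSup ((fun r => |u r|) '' V) ≤ a + sSup ((fun r => |u r|) '' V) / 2 :=
    csSup_le ⟨_, r, hr, rfl⟩ (by rintro _ ⟨x, hx, rfl⟩; exact H _ k x hx)
  linarith [k r hr]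

end gen

theorem Ib {g : ℝ → ℝ} {c l d : ℝ} (hd : 0 ≤ d)
    (H : ∀ x ∈ Ioo 0 d, |g x| ≤ c * (l * exp (-l * x))) :
    |∫ x in (0 : ℝ)..d, g x| ≤ c * (1 - exp (-l * d)) := by
  have e : ∫ x in (0 : ℝ)..d, c * (l * exp (-l * x)) = c * (1 - exp (-l * d)) := by
    rw [intervalIntegral.integral_eq_sub_of_hasDerivAt (f := fun x => -c * exp (-l * x))
      (fun x _ => ((((hasDerivAt_id x).const_mul (-l)).exp).const_mul (-c)).congr_deriv
        (by simp only [id]; ring)) (Continuous.intervalIntegrable (by fun_prop) _ _)]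
    simp only [mul_zero, exp_zero]
    ring
  rw [← e]
  refine intervalIntegral.norm_integral_le_of_norm_le (μ := volume) (f := g)
    (g := fun x => c * (l * exp (-l * x))) hd ?_
    (Continuous.intervalIntegrable (by fun_prop) _ _)
  filter_upwards [Ioo_ae_eq_Ioc (μ := volume) (a := 0) (b := d)] with x hx h
  exact H x (hx.mpr h)

noncomputable def k (l x : ℝ) : ℝ := l * exp (-l * x)

noncomputable def k' (x : ℝ) : ℝ := (1 - x) * exp (-1 * x)

theorem ck (l : ℝ) : Continuous (k l) := by unfold k; fun_prop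

theorem ck' : Continuous k' := by unfold k'; fun_prop

theorem kb {x : ℝ} (h0 : 0 < x) (h8 : x < 8) : |k' x| ≤ 7 * k 1 x := by
  rw [k', k, abs_mul, abs_of_pos (exp_pos _), one_mul]
  gcongr
  rw [abs_le]; constructor <;> linarith

theorem kest {x h : ℝ} (h0 : 0 < x) (h8 : x < 8) (hh : |h| ≤ 1 / 8) :
    |k (1 + h) x - k 1 x - h * k' x| ≤ 136 * h ^ 2 * k 1 x ∧
    |k (1 + h) x - k 1 x| ≤ 24 * |h| * k 1 x ∧ |k (1 + h) x| ≤ 4 * k 1 x := by
  have p := exp_pos (-1 * x)
  have a := abs_exp_sub_one_sub_id_le (x := -h * x) (by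
    rw [abs_mul, abs_neg, abs_of_pos h0]; nlinarith [abs_nonneg h])
  have e : k (1 + h) x - k 1 x - h * k' x =
      ((1 + h) * (exp (-h * x) - 1 - -h * x) - h ^ 2 * x) * exp (-1 * x) := by
    rw [k, k, k', show -(1 + h) * x = -h * x + -1 * x by ring, exp_add]; ring
  have b : |k (1 + h) x - k 1 x - h * k' x| ≤ 136 * h ^ 2 * k 1 x := by
    rw [e, abs_mul, abs_of_pos p, k, one_mul]
    gcongr
    refine (abs_sub _ _).trans ?_
    rw [abs_mul, abs_of_nonneg (by positivity : 0 ≤ h ^ 2 * x)]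
    have a1 : |1 + h| ≤ 2 := (abs_add_le _ _).trans (by rw [abs_one]; linarith)
    have a2 : (-h * x) ^ 2 ≤ 64 * h ^ 2 := by
      rw [mul_pow, neg_sq, mul_comm]; gcongr; nlinarith
    have a3 := mul_le_mul a1 (a.trans a2) (abs_nonneg _) zero_le_two
    nlinarith [sq_nonneg h]
  have q : 0 < k 1 x := by rw [k, one_mul]; exact p
  have c : |k (1 + h) x - k 1 x| ≤ 24 * |h| * k 1 x := by
    rw [show k (1 + h) x - k 1 x = k (1 + h) x - k 1 x - h * k' x + h * k' x by ring]
    refine (abs_add_le _ _).trans ?_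
    rw [abs_mul]
    have := mul_le_mul_of_nonneg_left (kb h0 h8) (abs_nonneg h)
    have : h ^ 2 ≤ |h| * (1 / 8) := by rw [← sq_abs, sq]; gcongr
    nlinarith
  refine ⟨b, c, ?_⟩
  rw [show k (1 + h) x = k (1 + h) x - k 1 x + k 1 x by ring]
  refine (abs_add_le _ _).trans ?_
  rw [abs_of_pos q]
  nlinarith

variable {E S : Type} [MeasurableSpace E] [MeasurableSpace S]

structure Geo (V : Set E) (D : E × S → ℝ) (γ : E × S → ℝ → E) : Prop where
  mD : Measurable D
  D0 : ∀ P, 0 ≤ D P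
  D8 : ∀ P, D P ≤ 8
  mγ : Measurable fun z : (E × S) × ℝ => γ z.1 z.2
  mem : ∀ P, ∀ x ∈ Ioo 0 (D P), γ P x ∈ V

noncomputable def T (D : E × S → ℝ) (γ : E × S → ℝ → E) (j : ℝ → ℝ) (u : E → ℝ) (P : E × S) : ℝ :=
  ∫ x in (0 : ℝ)..D P, j x * u (γ P x)

noncomputable def A (τ : Measure S) (M : E × S → ℝ) (r : E) : ℝ := ∫ ω, M (r, ω) ∂τ

noncomputable def s (D : E × S → ℝ) (P : E × S) : ℝ := 1 - exp (-1 * D P)

variable {V : Set E} {D : E × S → ℝ} {γ : E × S → ℝ → E} {τ : Measure S} [IsProbabilityMeasure τ]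
  {j : ℝ → ℝ} {u : E → ℝ} {M N : E × S → ℝ}

theorem ii (G : Geo V D γ) (hj : Continuous j) (hu : Bm u) (P : E × S) (a b : ℝ) :
    IntervalIntegrable (fun x => j x * u (γ P x)) volume a b := by
  obtain ⟨m, c, hc⟩ := hu
  refine IntervalIntegrable.continuousOn_mul (intervalIntegrable_iff.2 ?_) hj.continuousOn
  exact Measure.integrableOn_of_bounded (M := c) measure_Ioc_lt_top.ne
    (m.comp (G.mγ.comp (measurable_const.prodMk measurable_id))).aestronglyMeasurable
    (.of_forall fun x => hc _)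

theorem s0 (G : Geo V D γ) (P : E × S) : 0 ≤ s D P :=
  sub_nonneg.2 (exp_le_one_iff.2 (by linarith [G.D0 P]))

omit [MeasurableSpace E] [MeasurableSpace S] in
theorem s1 (P : E × S) : s D P ≤ 1 := sub_le_self _ (exp_pos _).le

theorem Bs (G : Geo V D γ) : Bm (s D) :=
  ⟨by have := G.mD; unfold s; fun_prop, 1, fun P => by rw [abs_of_nonneg (s0 G P)]; exact s1 P⟩

theorem BT (G : Geo V D γ) (hj : Continuous j) (hu : Bm u) : Bm (T D γ j u) := by
  obtain ⟨m, c, hc⟩ := hu
  constructor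
  · have : T D γ j u = fun P => ∫ x, if 0 < x ∧ x ≤ D P then j x * u (γ P x) else 0 := by
      ext P
      rw [T, intervalIntegral.integral_of_le (G.D0 P), ← integral_indicator measurableSet_Ioc]
      simp only [indicator_apply, mem_Ioc]
    rw [this]
    exact (StronglyMeasurable.integral_prod_right' (f := fun z : (E × S) × ℝ =>
      if 0 < z.2 ∧ z.2 ≤ D z.1 then j z.2 * u (γ z.1 z.2) else 0) (Measurable.ite
      ((measurableSet_lt measurable_const measurable_snd).inter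
        (measurableSet_le measurable_snd (G.mD.comp measurable_fst)))
      ((hj.measurable.comp measurable_snd).mul (m.comp G.mγ))
      measurable_const).stronglyMeasurable).measurable
  · obtain ⟨K, hK⟩ := (isCompact_Icc (a := (0 : ℝ)) (b := 8)).exists_bound_of_continuousOn
      hj.continuousOn
    refine ⟨|K| * |c| * 8, fun P => le_trans (intervalIntegral.norm_integral_le_of_norm_le_const
      (f := fun x => j x * u (γ P x)) (C := |K| * |c|) fun x hx => ?_) ?_⟩
    · rw [uIoc_of_le (G.D0 P)] at hx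
      rw [norm_mul]
      exact mul_le_mul ((hK x ⟨hx.1.le, hx.2.trans (G.D8 P)⟩).trans (le_abs_self _))
        ((hc _).trans (le_abs_self _)) (norm_nonneg _) (abs_nonneg _)
    · rw [sub_zero, abs_of_nonneg (G.D0 P)]
      gcongr
      exact G.D8 P

theorem iA (hM : Bm M) (r : E) : Integrable (fun ω => M (r, ω)) τ := by
  obtain ⟨m, c, hc⟩ := hM
  exact .of_bound (m.comp measurable_prodMk_left).aestronglyMeasurable c (.of_forall fun _ => hc _)

theorem BA (hM : Bm M) : Bm (A τ M) := by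
  obtain ⟨m, c, hc⟩ := hM
  exact ⟨m.stronglyMeasurable.integral_prod_right'.measurable, c, fun r => by
    simpa [A] using norm_integral_le_of_norm_le_const (μ := τ) (f := fun ω => M (r, ω)) (C := c)
      (.of_forall fun _ => hc _)⟩

theorem Aadd (hM : Bm M) (hN : Bm N) (r : E) :
    A τ (fun P => M P + N P) r = A τ M r + A τ N r := integral_add (iA hM r) (iA hN r)

theorem Asub (hM : Bm M) (hN : Bm N) (r : E) :
    A τ (fun P => M P - N P) r = A τ M r - A τ N r := integral_sub (iA hM r) (iA hN r)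

theorem Ale (hN : Bm N) {c : ℝ} {r : E} (H : ∀ ω, |M (r, ω)| ≤ c * N (r, ω)) :
    |A τ M r| ≤ c * A τ N r :=
  le_of_le_of_eq (norm_integral_le_of_norm_le (f := fun ω => M (r, ω)) ((iA hN r).const_mul c)
    (.of_forall H)) (integral_const_mul _ _)

theorem solve (G : Geo V D γ) (hN : Bm N) {l : ℝ} (hl : 0 < l) :
    ∃ g, Bm g ∧ ∀ r, g r = A τ (fun P => N P + T D γ (k l) g P) r := by
  refine fix (θ := 1 - exp (-l * 8)) (sub_nonneg.2 (exp_le_one_iff.2 (by linarith)))
    (sub_lt_self _ (exp_pos _)) (fun u hu => BA (hN.add (BT G (ck l) hu))) fun u v b hu hv h r => ?_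
  rw [← Asub (hN.add (BT G (ck l) hu)) (hN.add (BT G (ck l) hv))]
  refine (Ale (N := fun _ => 1) (c := (1 - exp (-l * 8)) * b)
    ⟨measurable_const, 1, fun _ => by simp⟩ fun ω => ?_).trans_eq (by simp [A])
  rw [add_sub_add_left_eq_sub, T, T,
    ← intervalIntegral.integral_sub (ii G (ck l) hu _ _ _) (ii G (ck l) hv _ _ _)]
  have b0 := (abs_nonneg _).trans (h r)
  refine (Ib (c := b) (l := l) (G.D0 _) fun x _ => ?_).trans ?_
  · rw [← mul_sub, abs_mul, k, abs_of_pos (by positivity), mul_comm]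
    gcongr
    exact h _
  · rw [mul_one, mul_comm]
    have := exp_le_exp.2 (mul_le_mul_of_nonpos_left (G.D8 (r, ω)) (neg_nonpos.2 hl.le))
    gcongr

def Sol (V : Set E) (D : E × S → ℝ) (γ : E × S → ℝ → E) (τ : Measure S) (l : ℝ)
    (M : E × S → ℝ) : Prop :=
  Bm M ∧ ∀ P, P.1 ∈ V → M P = s D P + T D γ (k l) (A τ M) P

theorem exS (G : Geo V D γ) {l : ℝ} (hl : 0 < l) : ∃ M, Sol V D γ τ l M := by
  obtain ⟨g, Bg, hg⟩ := solve (τ := τ) G (Bs G) hl
  exact ⟨_, (Bs G).add (BT G (ck l) Bg), fun P _ => by rw [← funext hg]⟩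

theorem der (G : Geo V D γ) {κ : ℝ} (h1 : ∀ r, A τ (s D) r ≤ κ) (h2 : κ ≤ 1 / 400)
    {M : ℝ → E × S → ℝ} (H : ∀ l, 0 < l → Sol V D γ τ l (M l)) :
    ∃ m n, Bm m ∧ Bm n ∧ (∀ r ∈ V, |m r - A τ (s D) r| ≤ 2 * κ ^ 2 ∧ |m r| ≤ 2 * A τ (s D) r ∧
      |n r| ≤ 28 * κ ^ 2 ∧ |n r| ≤ A τ (s D) r) ∧
      ∀ P, P.1 ∈ V → HasDerivAt (M · P) (T D γ k' m P + T D γ (k 1) n P) 1 := by
  obtain ⟨B1, e1⟩ := H 1 one_pos
  obtain ⟨m, hm⟩ : ∃ m, m = A τ (M 1) := ⟨_, rfl⟩
  have Bm1 : Bm m := hm ▸ BA B1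
  rw [← hm] at e1
  obtain ⟨n, Bn, en⟩ := solve (τ := τ) G (BT G ck' Bm1) one_pos
  have a0 : ∀ r, 0 ≤ A τ (s D) r := fun r => integral_nonneg fun _ => s0 G _
  have Tb : ∀ {j : ℝ → ℝ} {u : E → ℝ} {b c : ℝ}, (∀ x, 0 < x → x < 8 → |j x| ≤ c * k 1 x) →
      (∀ r ∈ V, |u r| ≤ b) → ∀ P, |T D γ j u P| ≤ c * b * s D P := fun hj hu P =>
    Ib (G.D0 P) fun x hx => by
      rw [abs_mul, mul_right_comm]
      have := hj x hx.1 (hx.2.trans_le (G.D8 P))
      exact mul_le_mul this (hu _ (G.mem P x hx)) (abs_nonneg _) ((abs_nonneg _).trans this)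
  have k1 : ∀ x, 0 < x → x < 8 → |k 1 x| ≤ 1 * k 1 x := fun x _ _ => by
    rw [one_mul, abs_of_pos (by unfold k; positivity)]
  have m1 : ∀ b, (∀ r ∈ V, |m r| ≤ b) → ∀ r ∈ V, |m r - A τ (s D) r| ≤ b * A τ (s D) r :=
    fun b hb r hr => by
      rw [hm, ← Asub B1 (Bs G)]
      refine Ale (Bs G) fun ω => ?_
      rw [e1 _ hr, add_sub_cancel_left]
      simpa using Tb k1 hb _
  have m2 : ∀ r ∈ V, |m r| ≤ 2 * κ := supl Bm1 fun b hb r hr => by
    have := (abs_nonneg _).trans (hb r hr)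
    have := abs_le.1 (m1 b hb r hr)
    have := mul_le_mul_of_nonneg_left ((h1 r).trans h2) ‹0 ≤ b›
    rw [abs_le]
    constructor <;> linarith [a0 r, h1 r]
  have n1 : ∀ b, (∀ r ∈ V, |n r| ≤ b) → ∀ r, |n r| ≤ (14 * κ + b) * A τ (s D) r :=
    fun b hb r => by
      rw [en]
      refine Ale (Bs G) fun ω => (abs_add_le _ _).trans ?_
      linarith [Tb (fun x => kb) m2 (r, ω), Tb k1 hb (r, ω)]
  have n2 : ∀ r ∈ V, |n r| ≤ 2 * (14 * κ ^ 2) := supl Bn fun b hb r hr => by
    have := (abs_nonneg _).trans (hb r hr)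
    have := (a0 r).trans (h1 r)
    have := (n1 b hb r).trans (mul_le_mul_of_nonneg_left (h1 r) (by positivity))
    nlinarith
  refine ⟨m, n, Bm1, Bn, fun r hr => ?_, fun P hP => ?_⟩
  · have := (a0 r).trans (h1 r)
    have q := m1 _ m2 r hr
    have q' := abs_le.1 q
    have := a0 r
    refine ⟨q.trans (by nlinarith [h1 r]), abs_le.2 ⟨by nlinarith, by nlinarith⟩,
      by linarith [n2 r hr], (n1 _ n2 r).trans (mul_le_of_le_one_left this (by nlinarith))⟩
  have κ0 := (a0 P.1).trans (h1 _)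
  have key : ∀ h, |h| ≤ 1 / 8 → |M (1 + h) P - M 1 P - h * (T D γ k' m P + T D γ (k 1) n P)| ≤
      164 * h ^ 2 := fun h hh => by
    obtain ⟨B2, e2⟩ := H (1 + h) (by linarith [(abs_le.1 hh).1])
    have BN := (BT G ck' Bm1).add (BT G (ck 1) Bn)
    have Be := ((BA (τ := τ) B2).sub Bm1).sub (Bn.mul h)
    have E1 : ∀ b, (∀ r ∈ V, |A τ (M (1 + h)) r - m r - h * n r| ≤ b) → ∀ P, P.1 ∈ V →
        |M (1 + h) P - M 1 P - h * (T D γ k' m P + T D γ (k 1) n P)| ≤
          (160 * h ^ 2 + 4 * b) * s D P := fun b hb P hP => by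
      have : M (1 + h) P - M 1 P - h * (T D γ k' m P + T D γ (k 1) n P) =
          T D γ (fun x => k (1 + h) x - k 1 x - h * k' x) m P +
          h * T D γ (fun x => k (1 + h) x - k 1 x) n P +
          T D γ (k (1 + h)) (fun r => A τ (M (1 + h)) r - m r - h * n r) P := by
        have c1 := ck (1 + h)
        have c2 := ck 1
        have c3 := ck'
        rw [e2 P hP, e1 P hP, add_sub_add_left_eq_sub]
        unfold T
        rw [← intervalIntegral.integral_add (ii G c3 Bm1 _ _ _) (ii G c2 Bn _ _ _),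
          ← intervalIntegral.integral_const_mul, ← intervalIntegral.integral_const_mul,
          ← intervalIntegral.integral_sub (ii G c1 (BA B2) _ _ _) (ii G c2 Bm1 _ _ _),
          ← intervalIntegral.integral_sub ((ii G c1 (BA B2) _ _ _).sub (ii G c2 Bm1 _ _ _))
            (((ii G c3 Bm1 _ _ _).add (ii G c2 Bn _ _ _)).const_mul h),
          ← intervalIntegral.integral_add (ii G (by fun_prop) Bm1 _ _ _)
            ((ii G (by fun_prop) Bn _ _ _).const_mul h),
          ← intervalIntegral.integral_add ((ii G (by fun_prop) Bm1 _ _ _).add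
            ((ii G (by fun_prop) Bn _ _ _).const_mul h)) (ii G c1 Be _ _ _)]
        congr 1
        ext x
        ring
      rw [this]
      have t1 := Tb (u := m) (b := 1) (fun x a b => (kest a b hh).1)
        (fun r hr => by linarith [m2 r hr]) P
      have t2 := mul_le_mul_of_nonneg_left (Tb (u := n) (b := 1) (fun x a b => (kest a b hh).2.1)
        (fun r hr => by nlinarith [n2 r hr]) P) (abs_nonneg h)
      have t3 := Tb (fun x a b => (kest a b hh).2.2) hb P
      rw [← abs_mul, show |h| * (24 * |h| * 1 * s D P) = 24 * |h| ^ 2 * s D P by ring,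
        sq_abs] at t2
      linarith [abs_add_three (T D γ (fun x => k (1 + h) x - k 1 x - h * k' x) m P)
        (h * T D γ (fun x => k (1 + h) x - k 1 x) n P)
        (T D γ (k (1 + h)) (fun r => A τ (M (1 + h)) r - m r - h * n r) P)]
    have E2 := supl (V := V) (a := h ^ 2 / 2) Be fun b hb r hr => by
      have b0 := (abs_nonneg _).trans (hb r hr)
      have : A τ (M (1 + h)) r - m r - h * n r = A τ (fun P => M (1 + h) P - M 1 P -
          h * (T D γ k' m P + T D γ (k 1) n P)) r := by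
        rw [Asub (B2.sub B1) (BN.mul h), Asub B2 B1, ← hm, en r]
        exact congrArg _ (integral_const_mul _ _).symm
      rw [this]
      refine ((Ale (Bs G) fun ω => E1 b hb (r, ω) hr).trans
        (mul_le_mul_of_nonneg_left ((h1 r).trans h2) (by positivity))).trans ?_
      nlinarith [sq_nonneg h]
    refine (E1 _ E2 P hP).trans ((mul_le_of_le_one_right (by positivity) (s1 P)).trans_eq ?_)
    ring
  rw [hasDerivAt_iff_isLittleO_nhds_zero]
  refine (Asymptotics.IsBigO.of_bound 164 ?_).trans_isLittleO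
    (Asymptotics.isLittleO_pow_id (𝕜 := ℝ) one_lt_two)
  filter_upwards [Metric.closedBall_mem_nhds (0 : ℝ) (by norm_num : (0 : ℝ) < 1 / 8)] with h hh
  simpa using key h (by simpa using hh)

end Pool.Agent.H.MP_f7849a_an
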