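import Pool.Agent.H.MP_f7849a_an.A

set_option autoImplicit false

namespace Pool.Agent.H.MP_f7849a_an
open scoped Topology ENNReal
open MeasureTheory Set Filter Real Metric

abbrev E := EuclideanSpace ℝ (Fin 3)

abbrev S := sphere (0 : E) 1

def γ (P : E × S) (x : ℝ) : E := P.1 + x • (P.2 : E)

noncomputable def D (V : Set E) (P : E × S) : ℝ := sInf {t | 0 < t ∧ γ P t ∉ V}

noncomputable def τ : Measure S := (ENNReal.ofReal (4 * π))⁻¹ • (volume : Measure E).toSphere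

instance : IsProbabilityMeasure τ := ⟨by
  rw [τ, Measure.smul_apply, Measure.toSphere_apply_univ, EuclideanSpace.volume_ball_fin_three,
    finrank_euclideanSpace_fin, ← ENNReal.ofReal_natCast, ENNReal.ofReal_one, one_pow, one_mul,
    ← ENNReal.ofReal_mul (by positivity), show ((3 : ℕ) : ℝ) * (π * 4 / 3) = 4 * π by
    push_cast; ring, smul_eq_mul, ENNReal.inv_mul_cancel (by simpa using pi_pos) ENNReal.ofReal_ne_top]⟩

theorem intτ (f : S → ℝ) : ∫ ω, f ω ∂τ = (4 * π)⁻¹ * ∫ ω, f ω ∂(volume : Measure E).toSphere := by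
  rw [τ, integral_smul_measure, ENNReal.toReal_inv, ENNReal.toReal_ofReal (by positivity),
    smul_eq_mul]

theorem n1 (ω : S) : ‖(ω : E)‖ = 1 := norm_eq_of_mem_sphere ω

theorem cγ : Continuous fun z : (E × S) × ℝ => γ z.1 z.2 := by unfold γ; fun_prop

variable {V : Set E}

theorem Dle {P : E × S} {t : ℝ} (h0 : 0 < t) (h : γ P t ∉ V) : D V P ≤ t :=
  csInf_le ⟨0, fun _ h => h.1.le⟩ ⟨h0, h⟩

theorem Dmem (P : E × S) (x : ℝ) (hx : x ∈ Ioo 0 (D V P)) : γ P x ∈ V :=
  by_contra fun h => absurd (Dle hx.1 h) (not_le.2 hx.2)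

theorem Dge (hb : V ⊆ ball 0 4) {P : E × S} {a : ℝ} (h : ∀ t ∈ Ioo 0 a, γ P t ∈ V) :
    a ≤ D V P := by
  refine le_csInf ⟨‖P.1‖ + 4, by positivity, fun h => ?_⟩
    fun t ht => not_lt.1 fun h' => ht.2 (h t ⟨ht.1, h'⟩)
  have := mem_ball_zero_iff.1 (hb h)
  have a := norm_sub_le (γ P (‖P.1‖ + 4)) P.1
  rw [γ, add_sub_cancel_left, norm_smul, n1, norm_of_nonneg (by positivity)] at a
  unfold γ at this
  linarith

theorem vol {F : Type} [NormedAddCommGroup F] [NormedSpace ℝ F] (a b : F) {ρ c : ℝ} (hb : 0 < ‖b‖)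
    (h : 2 * ρ ≤ c * ‖b‖) : volume {t : ℝ | ‖a + t • b‖ < ρ} ≤ ENNReal.ofReal c := by
  refine (volume_le_diam _).trans (ediam_le_of_forall_dist_le fun x hx y hy => ?_)
  have := norm_sub_le (a + x • b) (a + y • b)
  rw [add_sub_add_left_eq_sub, ← sub_smul, norm_smul] at this
  refine le_of_mul_le_mul_right ?_ hb
  rw [dist_eq_norm]
  linarith [show ‖a + x • b‖ < ρ from hx, show ‖a + y • b‖ < ρ from hy]

theorem geo (ho : IsOpen V) (hb : V ⊆ ball 0 4) : Geo V (D V) γ := by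
  have D0 : ∀ P, 0 ≤ D V P := fun P => Real.sInf_nonneg fun _ h => h.1.le
  refine ⟨measurable_of_Ici fun a => ?_, D0, fun P => ?_, cγ.measurable, Dmem⟩
  · have : D V ⁻¹' Ici a =
        ⋂ n : ℕ, {P | ∀ t ∈ Icc (1 / (n + 1 : ℝ)) (a - 1 / (n + 1 : ℝ)), γ P t ∈ V} := by
      ext P
      simp only [mem_preimage, mem_Ici, mem_iInter, mem_ofPred_eq]
      refine ⟨fun h n t ht => Dmem P t ?_, fun h => Dge hb fun t ht => ?_⟩
      · have : 0 < 1 / (n + 1 : ℝ) := by positivity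
        exact ⟨by linarith [ht.1], by linarith [ht.2]⟩
      · obtain ⟨n, hn⟩ := exists_nat_one_div_lt (lt_min ht.1 (sub_pos.2 ht.2))
        exact h n t ⟨(hn.trans_le (min_le_left _ _)).le, by linarith [min_le_right t (a - t)]⟩
    rw [this]
    refine MeasurableSet.iInter fun n => (isOpen_iff_mem_nhds.2 fun P hP => ?_).measurableSet
    exact isCompact_Icc.eventually_forall_of_forall_eventually (P := fun P t => γ P t ∈ V)
      fun t ht => cγ.continuousAt.eventually (ho.mem_nhds (hP t ht))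
  · have := (measure_mono fun t ht => mem_ball_zero_iff.1 (hb (Dmem P t ht))).trans
      (vol P.1 (P.2 : E) (c := 8) (by rw [n1]; norm_num) (by rw [n1]; norm_num))
    rwa [Real.volume_Ioo, sub_zero, ENNReal.ofReal_le_ofReal_iff (by norm_num)] at this

theorem cone {β : ℝ} (hβ : 0 < β) : ∃ θ, 0 < θ ∧ τ.real {ω : S | |(ω : E) 1| < θ} ≤ β := by
  have m : ∀ θ, MeasurableSet {ω : S | |(ω : E) 1| < θ} := fun θ =>
    (isOpen_lt (by fun_prop) continuous_const).measurableSet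
  have t := tendsto_measure_biInter_gt (μ := τ) (s := fun θ : ℝ => {ω : S | |(ω : E) 1| < θ})
    (a := 0) (fun θ _ => (m θ).nullMeasurableSet) (fun _ _ _ h _ k => k.trans_le h)
    ⟨1, one_pos, measure_ne_top _ _⟩
  have z : τ (⋂ θ > (0 : ℝ), {ω : S | |(ω : E) 1| < θ}) = 0 := by
    refine measure_mono_null (t := {ω : S | (ω : E) 1 = 0}) (fun ω h => ?_) ?_
    · simp only [mem_iInter, mem_ofPred_eq] at h ⊢
      exact abs_nonpos_iff.1 (le_of_forall_gt h)
    · have z := Measure.addHaar_submodule (volume : Measure E)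
        (LinearMap.ker (EuclideanSpace.projₗ (1 : Fin 3) : E →ₗ[ℝ] ℝ)) fun h => by
          have : EuclideanSpace.single (1 : Fin 3) (1 : ℝ) ∈
            LinearMap.ker (EuclideanSpace.projₗ (1 : Fin 3) : E →ₗ[ℝ] ℝ) := h ▸ Submodule.mem_top
          simp at this
      rw [τ, Measure.smul_apply, Measure.toSphere_apply' _
        (isClosed_eq (by fun_prop) continuous_const).measurableSet, measure_mono_null _ z]
      · simp
      · rintro _ ⟨c, -, _, ⟨ω, h, rfl⟩, rfl⟩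
        simp [show (ω : E) 1 = 0 from h]
  rw [z] at t
  obtain ⟨θ, h1, h2⟩ := ((t.eventually (ge_mem_nhds (ENNReal.ofReal_pos.2 hβ))).and
    self_mem_nhdsWithin).exists
  exact ⟨θ, h2, ENNReal.toReal_le_of_le_ofReal hβ.le h1⟩

noncomputable def e : S := ⟨EuclideanSpace.single 0 1, by simp⟩

theorem piece {g : ℝ → ℝ} (hg : ∀ a b, IntervalIntegrable g volume a b) {a b c : ℝ} (h : a ≤ b)
    (H : ∀ x ∈ Ioo a b, g x ≤ c) : ∫ x in a..b, g x ≤ (b - a) * c := by
  simpa using intervalIntegral.integral_mono_on_of_le_Ioo h (hg a b)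
    (intervalIntegrable_const (c := c)) H

theorem main : ∃ V : Set E, IsOpen V ∧ V ⊆ ball 0 4 ∧ 0 ∈ V ∧ ∀ M : ℝ → E × S → ℝ,
    (∀ l, 0 < l → Sol V (D V) γ τ l (M l)) → ∃ c < 0, HasDerivAt (M · (0, e)) c 1 := by
  obtain ⟨ρ, hρ⟩ : ∃ ρ : ℝ, ρ = 1 / 1000000 := ⟨_, rfl⟩
  obtain ⟨β, hβ⟩ : ∃ β : ℝ, β = ρ ^ 3 := ⟨_, rfl⟩
  have ρ0 : 0 < ρ := by rw [hρ]; norm_num
  have β0 : 0 < β := by rw [hβ]; positivity
  have βρ : 3 * β ≤ ρ := by rw [hβ, hρ]; norm_num
  obtain ⟨θ, θ0, hθ⟩ := cone β0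
  obtain ⟨V, hV⟩ : ∃ V : Set E,
    V = {v | ‖v‖ < 4 ∧ |v 1| < β * θ} ∪ ball ((2 : ℝ) • (e : E)) ρ := ⟨_, rfl⟩
  have ho : IsOpen V := by
    rw [hV]
    exact IsOpen.union (IsOpen.and (isOpen_lt continuous_norm continuous_const)
      (isOpen_lt (f := fun v : E => |v 1|) (by fun_prop) continuous_const)) isOpen_ball
  have hb : V ⊆ ball 0 4 := by
    rw [hV]
    refine union_subset (fun v h => mem_ball_zero_iff.2 h.1) (ball_subset_ball' ?_)
    rw [dist_zero_right, norm_smul, n1, hρ]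
    norm_num
  have G := geo ho hb
  have ax : ∀ x : ℝ, |x| < 4 → x • (e : E) ∈ V := fun x hx => hV ▸ Or.inl
    ⟨by rwa [norm_smul, n1, mul_one], by simp [e, β0, θ0]⟩
  have V0 : 0 ∈ V := by simpa using ax 0 (by simp)
  have Ab : ∀ r c, 0 ≤ c → (∀ ω : S, θ ≤ |(ω : E) 1| → D V (r, ω) ≤ c) →
      A τ (s (D V)) r ≤ β + c := fun r c c0 h => by
    have m : MeasurableSet {ω : S | |(ω : E) 1| < θ} :=
      (isOpen_lt (by fun_prop) continuous_const).measurableSet
    refine (integral_mono (iA (Bs G) r) (((integrable_const (1 : ℝ)).indicator m).add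
      (integrable_const c)) fun ω => ?_).trans ?_
    · by_cases k : |(ω : E) 1| < θ
      · simp only [Pi.add_apply, indicator_of_mem (show ω ∈ {ω : S | |(ω : E) 1| < θ} from k)]
        linarith [s1 (D := D V) (r, ω)]
      · simp only [Pi.add_apply, indicator_of_notMem (show ω ∉ {ω : S | |(ω : E) 1| < θ} from k), s]
        linarith [add_one_le_exp (-1 * D V (r, ω)), h ω (not_lt.1 k)]
    · rw [integral_add' ((integrable_const _).indicator m) (integrable_const c),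
        integral_indicator_const _ m]
      simpa using hθ
  have A1 : ∀ r, A τ (s (D V)) r ≤ 3 * ρ := fun r => by
    refine (Ab r (2 * β + 2 * ρ) (by positivity) fun ω h => ?_).trans (by linarith)
    have : Ioo 0 (D V (r, ω)) ⊆ {t : ℝ | ‖r 1 + t • (ω : E) 1‖ < β * θ} ∪
        {t : ℝ | ‖r - (2 : ℝ) • (e : E) + t • (ω : E)‖ < ρ} := fun t ht => by
      have := Dmem _ t ht
      rw [hV] at this
      refine this.imp (fun k => by simpa [γ] using k.2) fun k => ?_
      rwa [mem_ball_iff_norm, γ, add_sub_right_comm] at k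
    have := (measure_mono this).trans ((measure_union_le _ _).trans (add_le_add
      (vol _ _ (c := 2 * β) (θ0.trans_le h) (by rw [norm_eq_abs]; nlinarith))
      (vol _ _ (c := 2 * ρ) (by rw [n1]; norm_num) (by rw [n1]; norm_num))))
    rwa [Real.volume_Ioo, sub_zero, ← ENNReal.ofReal_add (by positivity) (by positivity),
      ENNReal.ofReal_le_ofReal_iff (by positivity)] at this
  have dist : ∀ (x t : ℝ) (ω : S), 0 < t → |‖γ (x • (e : E), ω) t - (2 : ℝ) • (e : E)‖ - abs (x - 2)|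
      ≤ t := fun x t ω ht => by
    have := abs_norm_sub_norm_le (γ (x • (e : E), ω) t - (2 : ℝ) • (e : E)) ((x - 2) • (e : E))
    rwa [norm_smul, n1, mul_one, show γ (x • (e : E), ω) t - (2 : ℝ) • (e : E) - (x - 2) • (e : E)
      = t • (ω : E) by rw [γ, sub_smul]; abel, norm_smul, n1, mul_one, norm_of_nonneg ht.le] at this
  have A2 : ∀ x : ℝ, 2 * ρ ≤ |x - 2| → A τ (s (D V)) (x • (e : E)) ≤ 2 * β := fun x hx => by
    refine (Ab _ β β0.le fun ω h => ?_).trans (by linarith)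
    have w0 := θ0.trans_le h
    have t0 : 0 < β * θ / |(ω : E) 1| := by positivity
    have t1 : β * θ / |(ω : E) 1| ≤ β := by rw [div_le_iff₀ w0]; gcongr
    refine (Dle t0 ?_).trans t1
    rw [hV]
    rintro (k | k)
    · refine k.2.ne ?_
      simp [γ, e, abs_mul, abs_div, abs_of_pos β0, abs_of_pos θ0, div_mul_cancel₀ _ w0.ne']
    · rw [mem_ball_iff_norm] at k
      linarith [(abs_le.1 (dist x _ ω t0)).1]
  have A3 : ∀ x : ℝ, |x - 2| ≤ ρ / 2 → ρ / 4 ≤ A τ (s (D V)) (x • (e : E)) := fun x hx => by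
    refine le_of_eq_of_le (by simp) (integral_mono (integrable_const (ρ / 4)) (iA (Bs G) _)
      fun ω => ?_)
    have a : ρ / 2 ≤ D V (x • (e : E), ω) := Dge hb fun t ht => hV ▸ Or.inr (by
      rw [mem_ball_iff_norm]
      linarith [(abs_le.1 (dist x t ω ht.1)).2, ht.2])
    have b := exp_le_exp.2 (show -1 * D V (x • (e : E), ω) ≤ -(ρ / 2) by linarith)
    have c := (abs_le.1 (abs_exp_sub_one_sub_id_le (x := -(ρ / 2)) (by
      rw [hρ]; norm_num [abs_of_pos]))).2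
    have : (-(ρ / 2)) ^ 2 ≤ ρ / 4 := by rw [hρ]; norm_num
    simp only [s]
    linarith
  refine ⟨V, ho, hb, V0, fun M H => ?_⟩
  obtain ⟨m, n, B1, B2, h, hd⟩ := der G A1 (by rw [hρ]; norm_num) H
  refine ⟨_, ?_, hd (0, e) V0⟩
  have D3 : 3 ≤ D V (0, e) := Dge hb fun t ht => by
    rw [γ, zero_add]
    exact ax t (abs_lt.2 ⟨by linarith [ht.1], by linarith [ht.2]⟩)
  have D4 : D V (0, e) ≤ 4 := Dle (by norm_num) fun k => by
    have := mem_ball_zero_iff.1 (hb k)
    rw [γ, zero_add, norm_smul, n1] at this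
    norm_num at this
  obtain ⟨g, hg⟩ : ∃ g : ℝ → ℝ, g = fun x => k' x * m (γ (0, e) x) + k 1 x * n (γ (0, e) x) :=
    ⟨_, rfl⟩
  have ig : ∀ a b, IntervalIntegrable g volume a b := fun a b =>
    hg ▸ (ii G ck' B1 _ _ _).add (ii G (ck 1) B2 _ _ _)
  have ge : ∀ x, g x = exp (-x) * ((1 - x) * m (x • (e : E)) + n (x • (e : E))) := fun x => by
    simp only [hg, k, k', γ, zero_add, neg_mul, one_mul]
    ring
  have gl : ∀ x c, 0 < x → 0 ≤ c → (1 - x) * m (x • (e : E)) + n (x • (e : E)) ≤ c → g x ≤ c :=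
    fun x c h1 h2 h3 => by
      rw [ge]
      exact (mul_le_mul_of_nonneg_left h3 (exp_pos _).le).trans
        (mul_le_of_le_one_left h2 (exp_le_one_iff.2 (by linarith)))
  have g1 : ∀ x, 0 < x → x < 4 → 2 * ρ ≤ |x - 2| → g x ≤ 14 * β := fun x h1 h2 h3 => by
    obtain ⟨-, a, -, b⟩ := h _ (ax x (abs_lt.2 ⟨by linarith, h2⟩))
    have c := A2 x h3
    refine gl x _ h1 (by positivity) ?_
    have := le_abs_self ((1 - x) * m (x • (e : E)))
    rw [abs_mul] at this
    have := mul_le_mul (abs_le.2 ⟨by linarith, by linarith⟩ : |1 - x| ≤ 3)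
      (a.trans (mul_le_mul_of_nonneg_left c zero_le_two)) (abs_nonneg _) (by norm_num)
    linarith [le_abs_self (n (x • (e : E)))]
  have g2 : ∀ x, 3 / 2 < x → x < 3 → (1 - x) * m (x • (e : E)) + n (x • (e : E)) ≤
      32 * (3 * ρ) ^ 2 - A τ (s (D V)) (x • (e : E)) / 2 := fun x h1 h2 => by
    obtain ⟨a, -, b, -⟩ := h _ (ax x (abs_lt.2 ⟨by linarith, by linarith⟩))
    have c : 0 ≤ A τ (s (D V)) (x • (e : E)) := integral_nonneg fun _ => s0 G _
    nlinarith [(abs_le.1 a).1, (abs_le.1 b).2, sq_nonneg (3 * ρ)]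
  have g3 : ∀ x, 3 / 2 < x → x < 3 → g x ≤ 32 * (3 * ρ) ^ 2 := fun x h1 h2 =>
    gl x _ (by linarith) (by positivity) ((g2 x h1 h2).trans (sub_le_self _
      (div_nonneg (integral_nonneg fun _ => s0 G _) zero_le_two)))
  have g4 : ∀ x, |x - 2| ≤ ρ / 2 → g x ≤ -ρ / 270 := fun x hx => by
    have a := abs_le.1 hx
    have b := g2 x (by linarith) (by linarith)
    have c := A3 x hx
    have d : 32 * (3 * ρ) ^ 2 - ρ / 8 ≤ -ρ / 10 := by rw [hρ]; norm_num
    have f : 1 / 27 ≤ exp (-x) := by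
      rw [exp_neg, one_div]
      refine inv_anti₀ (exp_pos _) ((exp_le_exp.2 (by push_cast; linarith :
        x ≤ ((3 : ℕ) : ℝ) * 1)).trans ?_)
      rw [exp_nat_mul]
      exact (pow_le_pow_left₀ (exp_pos _).le exp_one_lt_three.le 3).trans_eq (by norm_num)
    rw [ge]
    nlinarith
  have p1 := piece ig (a := 0) (b := 2 - 2 * ρ) (by linarith) fun x hx =>
    g1 x hx.1 (by linarith [hx.2]) (le_abs.2 (Or.inr (by linarith [hx.2])))
  have p2 := piece ig (a := 2 - 2 * ρ) (b := 2 - ρ / 2) (by linarith) fun x hx =>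
    g3 x (by linarith [hx.1]) (by linarith [hx.2])
  have p3 := piece ig (a := 2 - ρ / 2) (b := 2 + ρ / 2) (by linarith) fun x hx =>
    g4 x (abs_le.2 ⟨by linarith [hx.1], by linarith [hx.2]⟩)
  have p4 := piece ig (a := 2 + ρ / 2) (b := 2 + 2 * ρ) (by linarith) fun x hx =>
    g3 x (by linarith [hx.1]) (by linarith [hx.2])
  have p5 := piece ig (a := 2 + 2 * ρ) (b := D V (0, e)) (by linarith) fun x hx =>
    g1 x (by linarith [hx.1]) (by linarith [hx.2]) (le_abs.2 (Or.inl (by linarith [hx.1])))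
  rw [T, T, ← intervalIntegral.integral_add (ii G ck' B1 _ _ _) (ii G (ck 1) B2 _ _ _), ← hg,
    ← intervalIntegral.integral_add_adjacent_intervals (ig 0 (2 - 2 * ρ)) (ig _ _),
    ← intervalIntegral.integral_add_adjacent_intervals (ig (2 - 2 * ρ) (2 - ρ / 2)) (ig _ _),
    ← intervalIntegral.integral_add_adjacent_intervals (ig (2 - ρ / 2) (2 + ρ / 2)) (ig _ _),
    ← intervalIntegral.integral_add_adjacent_intervals (ig (2 + ρ / 2) (2 + 2 * ρ)) (ig _ _)]
  subst hρ hβ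
  linarith

end Pool.Agent.H.MP_f7849a_an
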